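import Pool.Agent.U762.RP.Fin

set_option autoImplicit false

/-!
# Project DZ: the 3x+1 map changed at random on a set of density zero

`T(x) = (m_j x - r_j)/d` for `x ≡ j mod d`, relatively prime type, positive multipliers, `∏ m_j < d^d` (see
`Pool.Agent.U762.RP.Stm`, project RP, where perturbations of constant size with constant probability are treated).
Now the law of `ω_x` depends on `x`: `ω_x = 0` with probability `1 - A/log|x|`, otherwise uniform on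
`{0, …, |x|^δ - 1}`.  So `ω_x ≠ 0` only on a set of density zero.  Almost surely all orbits of `x ↦ T(x) + ω_x` are
finite, if `A ≥ A₀(δ)`.

Idea: for `|x| = e^ℓ` the potential `|y|^(1/ℓ)` decreases by a constant factor in `κ ℓ` steps of the annealed chain;
by `e t ≤ e^t` the potential `log |y|` decreases by a factor `γ < 1` in `κ log |x|` steps.

All statements below are `Prop`s; the packages prove them.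
-/

namespace Pool.Agent.U762.DZ

open Finset MeasureTheory Filter Pool.Agent.U762.RP

/-- transition operator, killed on `|x| < M`; the law `w x` of the perturbation depends on the point `x` -/
noncomputable def P (d : ℕ) (m r : ℤ → ℤ) (w : ℤ → ℤ → ℝ) (B : ℤ → ℕ) (M : ℝ) (F : ℤ → ℝ) (x : ℤ) : ℝ :=
  if |(x : ℝ)| < M then 0 else ∑ u ∈ Icc (-(B x : ℤ)) (B x), w x u * F (T d m r x + u)

/-- the function `|x|^θ` -/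
noncomputable def pw (θ : ℝ) (x : ℤ) : ℝ := |(x : ℝ)| ^ θ

/-- a bound for all factors `fac`, at least `1` -/
noncomputable def bb (d : ℕ) (m : ℤ → ℤ) (η : ℝ) : ℝ := 1 + ∑ j ∈ range d, fac d m η j

/-- local hypotheses on `z₀ ≤ |x| ≤ z₁`: near `x` (within `E`) all laws are below one measure `w'` on
`[-B', B']`, `B' ≤ h z₀`, of mass at most `1 + β` -/
structure Loc (w : ℤ → ℤ → ℝ) (B : ℤ → ℕ) (h β z₀ z₁ E : ℝ) : Prop where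
  nonneg : ∀ x u, 0 ≤ w x u
  mass : ∀ x, ∑ u ∈ Icc (-(B x : ℤ)) (B x), w x u ≤ 1
  slow : ∀ x : ℤ, z₀ ≤ |(x : ℝ)| → |(x : ℝ)| ≤ z₁ → ∃ (B' : ℕ) (w' : ℤ → ℝ), (B' : ℝ) ≤ h * z₀ ∧
    (∀ u, 0 ≤ w' u) ∧ ∑ u ∈ Icc (-(B' : ℤ)) B', w' u ≤ 1 + β ∧
    ∀ x' : ℤ, |(x' : ℝ) - x| ≤ E → B x' ≤ B' ∧ ∀ u : ℤ, |u| ≤ B x' → w x' u ≤ w' u

/-- **AVGd** (averages over arithmetic progressions; compare `S_AVG` and its proof in `Pool.Agent.U594.RP.AVG`).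
Take `z₀' ≥ 4 max |r_j| / min(1, η)` and `h ≤ min(1, η)/(4d)`.  Induction on `k`, all other variables general.
`k = 0`: each summand is `≤ z^θ`.  `k+1`, `i = i'+1`: drop the killing at the first step (all terms are `≥ 0`).
Take `B', w'` of `slow` at `x = y` (`z₀ ≤ zl ≤ |y| ≤ z ≤ z₁`); all `x_v = y + c v` are within `|c| d^i ≤ E` of `y`, so
`∑_v (P F)(x_v) ≤ ∑_{|u'| ≤ B'} w' u' ∑_v F(T x_v + u')`.  Split `v = s + d t`, `s < d`, `t < d^i'`: `x_v ≡ j(s)`,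
`s ↦ j(s)` is a bijection onto the residues, `T(x_v) = T(y + c s) + m_j c t`.  Induction hypothesis with
`y' = T(y+cs) + u'`, `c' = m_j c`, `z' = fac j * z`, `zl' = zl/(2d)`: `|T x + u'| ≥ |x|/(2d)` and
`|T x + u'| ≤ fac j * z` for `zl ≤ |x| ≤ z`, `|u'| ≤ h z₀`; `|c'| d^i' bb^k ≤ |c| d^i bb^(k+1)` as `m_j/d ≤ bb`. -/
def S_AVGd : Prop := ∀ (d : ℕ) (m r : ℤ → ℤ), Rel d m r → ∀ η : ℝ, 0 < η → ∃ z₀' h : ℝ, 1 ≤ z₀' ∧ 0 < h ∧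
  ∀ (w : ℤ → ℤ → ℝ) (B : ℤ → ℕ) (β z₀ z₁ E : ℝ), z₀' ≤ z₀ → 0 ≤ β → Loc w B h β z₀ z₁ E →
    ∀ M θ : ℝ, 0 ≤ θ → θ ≤ 1 → ∀ k i : ℕ, k ≤ i → ∀ c y : ℤ, IsCoprime c (d : ℤ) → ∀ zl z : ℝ,
      (2 * d : ℝ) ^ k * z₀ ≤ zl → z * bb d m η ^ k ≤ z₁ → |(c : ℝ)| * (d : ℝ) ^ i * bb d m η ^ k ≤ E →
      (∀ u : ℕ, u < d ^ i → zl ≤ |((y + c * u : ℤ) : ℝ)| ∧ |((y + c * u : ℤ) : ℝ)| ≤ z) →
      ∑ u ∈ range (d ^ i), (P d m r w B M)^[k] (pw θ) (y + c * u) ≤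
        (d : ℝ) ^ i * ((∑ j ∈ range d, fac d m η j ^ θ) / d * (1 + β)) ^ k * z ^ θ

/-- **WCd** (worst case; from AVGd, compare `S_WC` and `Pool.Agent.U97.RP.WC`).  Same `z₀', h` as in AVGd (or
larger/smaller).  Induction on `k`.  Step `k+1`: `z = fac j * |x|`, all `|T x + u|`, `|u| ≤ B x`, are between
`|x|/(2d)` and `z`; `∑_u w x u F(Tx+u) = (ε/d^i) ∑_{u<d^i} F(Tx+u) + rest`; AVGd with `c = 1`, `y = T x`,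
`zl = |x|/(2d)` for the first sum, the induction hypothesis and total mass `≤ 1 - ε` for the rest. -/
def S_WCd : Prop := ∀ (d : ℕ) (m r : ℤ → ℤ), Rel d m r → ∀ η : ℝ, 0 < η → ∃ z₀' h : ℝ, 1 ≤ z₀' ∧ 0 < h ∧
  ∀ (w : ℤ → ℤ → ℝ) (B : ℤ → ℕ) (β z₀ z₁ E : ℝ), z₀' ≤ z₀ → 0 ≤ β → Loc w B h β z₀ z₁ E →
    ∀ M θ ε R : ℝ, 0 ≤ θ → θ ≤ 1 → 0 < ε → ε < 1 → (∀ j ∈ range d, fac d m η j ^ θ ≤ R) → ∀ k₀ : ℕ,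
      (∀ x : ℤ, z₀ ≤ |(x : ℝ)| → |(x : ℝ)| ≤ z₁ → ∃ i : ℕ, k₀ ≤ i ∧ (d : ℝ) ^ i * bb d m η ^ k₀ ≤ E ∧
        d ^ i ≤ B x ∧ ∀ u : ℤ, 0 ≤ u → u < (d : ℤ) ^ i → ε / (d : ℝ) ^ i ≤ w x u) →
      ∀ k : ℕ, k ≤ k₀ → ∀ x : ℤ, (2 * d : ℝ) ^ k * z₀ ≤ |(x : ℝ)| → |(x : ℝ)| * bb d m η ^ k ≤ z₁ →
        (P d m r w B M)^[k] (pw θ) x ≤
          g ε R ((∑ j ∈ range d, fac d m η j ^ θ) / d * (1 + β)) k * |(x : ℝ)| ^ θ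

/-- **GEO** (numerical).  `η` with `(1+η)^d ∏ (m_j/d) < 1`.  Put `L₁ = log bb`, `ρ = (∑ fac^(1/ℓ))/d (1 + 4/ℓ²)`; for
large `ℓ`, `ρ ≤ e^(-c₁/ℓ)` with some `c₁ > 0` (derivative of `θ ↦ ∑ fac^θ` at `0`), `q = (1 - A/ℓ) bb^(1/ℓ) ≤
e^(-(A-L₁)/ℓ)`, `g k = q^k + (A/ℓ) bb^(1/ℓ) ∑_{j<k} q^j ρ^(k-1-j)`, which is at most
`e^(-(A-L₁)k/ℓ) + (A/ℓ) bb^(1/ℓ) e^(-c₁(k-1)/ℓ) / (1 - e^(-(A-L₁-c₁)/ℓ))`; with `k = ⌊κℓ⌋` this tends, as `ℓ → ∞`,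
to `e^(-(A-L₁)κ) + A/(A-L₁-c₁) e^(-c₁κ)`, which is `< 1` for all `A ≥ A₀(κ)`. -/
def S_GEO : Prop := ∀ (d : ℕ) (m : ℤ → ℤ), 2 ≤ d → (∀ j : ℤ, 0 ≤ j → j < d → 0 < m j) →
  (∏ j ∈ range d, m (j : ℤ)) < (d : ℤ) ^ d → ∃ η : ℝ, 0 < η ∧ η ≤ 1 ∧ ∀ κ : ℝ, 0 < κ → ∃ A₀ : ℝ, 0 < A₀ ∧
    ∀ A : ℝ, A₀ ≤ A → ∃ γ ℓ₀ : ℝ, 0 < γ ∧ γ < 1 ∧ 1 ≤ ℓ₀ ∧ A < ℓ₀ ∧ ∀ ℓ : ℝ, ℓ₀ ≤ ℓ →
      g (A / ℓ) (bb d m η ^ (1 / ℓ)) ((∑ j ∈ range d, fac d m η j ^ (1 / ℓ)) / d * (1 + 4 / ℓ ^ 2)) ⌊κ * ℓ⌋₊ ≤ γ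

/-- the laws: bounded by a small power of `|x|`, slowly varying, with a uniform component of mass `A/log|x|` -/
structure Law (d : ℕ) (w : ℤ → ℤ → ℝ) (B : ℤ → ℕ) (δ A M₀ : ℝ) : Prop where
  nonneg : ∀ x u, 0 ≤ w x u
  mass : ∀ x, ∑ u ∈ Icc (-(B x : ℤ)) (B x), w x u ≤ 1
  slow : ∀ x : ℤ, M₀ ≤ |(x : ℝ)| → ∃ (B' : ℕ) (w' : ℤ → ℝ), (B' : ℝ) ≤ |(x : ℝ)| ^ (2 * δ) ∧
    (∀ u, 0 ≤ w' u) ∧ ∑ u ∈ Icc (-(B' : ℤ)) B', w' u ≤ 1 + 1 / (Real.log |(x : ℝ)|) ^ 2 ∧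
    ∀ x' : ℤ, |(x' : ℝ) - x| ≤ |(x : ℝ)| ^ (1 / 2 : ℝ) → B x' ≤ B' ∧ ∀ u : ℤ, |u| ≤ B x' → w x' u ≤ w' u
  unif : ∀ x : ℤ, M₀ ≤ |(x : ℝ)| → ∃ i : ℕ, δ * Real.log |(x : ℝ)| ≤ (i + 1) * Real.log d ∧
    (d : ℝ) ^ i ≤ |(x : ℝ)| ^ (2 * δ) ∧ d ^ i ≤ B x ∧
    ∀ u : ℤ, 0 ≤ u → u < (d : ℤ) ^ i → A / Real.log |(x : ℝ)| / (d : ℝ) ^ i ≤ w x u

/-- **BLK**, from WCd and GEO.  `η` from GEO, `z₀', h` from WCd, `κ = min(δ/(4 log d), 1/(8(1+log bb)),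
1/(2 log(2d)))` or the like; `A₀` is twice that of GEO (`ε = (A/2)/ℓ`).  For `|x| = e^ℓ ≥ M₁` use WCd with
`θ = 1/ℓ`, `z₀ = |x|^(1/2)`, `z₁ = |x|^2`, `E = |x|^(1/4)`, `β = 4/ℓ²`, `R = bb^(1/ℓ)`, `k = k₀ = ⌊κℓ⌋`.  For
`z₀ ≤ |y| ≤ z₁`: `ℓ/2 ≤ log|y| ≤ 2ℓ`, `B' ≤ |y|^(2δ) ≤ |x|^(4δ) ≤ h |x|^(1/2)`, `E ≤ |y|^(1/2)`,
`i ≥ δ log|y|/log d - 1 ≥ k₀`, `d^i bb^k₀ ≤ |x|^(4δ + κ log bb) ≤ E`, `A/log|y| ≥ (A/2)/ℓ`.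
`|x|^(1/ℓ) = e`.  (`(2d)^k₀ z₀ ≤ |x|` and `|x| bb^k₀ ≤ z₁`.) -/
def S_BLK : Prop := ∀ (d : ℕ) (m r : ℤ → ℤ), Rel d m r → (∏ j ∈ range d, m (j : ℤ)) < (d : ℤ) ^ d →
  ∀ δ : ℝ, 0 < δ → δ ≤ 1 / 32 → ∃ A₀ κ : ℝ, 0 < A₀ ∧ 0 < κ ∧ ∀ A M₀ : ℝ, A₀ ≤ A → ∃ M₁ γ : ℝ, 3 ≤ M₁ ∧
    0 < γ ∧ γ < 1 ∧ ∀ (w : ℤ → ℤ → ℝ) (B : ℤ → ℕ), Law d w B δ A M₀ → ∀ (M : ℝ) (x : ℤ), M₁ ≤ |(x : ℝ)| →
      (P d m r w B M)^[⌊κ * Real.log |(x : ℝ)|⌋₊] (pw (1 / Real.log |(x : ℝ)|)) x ≤ γ * Real.exp 1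

/-- **HIT**, from BLK.  `M ≥ M₁`, `M ≥ 3`.  `lg y = 0` for `|y| < M`, `= log|y|` otherwise.  For `|x| ≥ M`, `ℓ = log|x|`:
`e * (log|y|/ℓ) ≤ |y|^(1/ℓ)` (`e t ≤ e^t`), so `P^k lg x ≤ γ ℓ`, `k = ⌊κℓ⌋` (if the first step is killed: `k = 0`
is excluded by `κ log M ≥ 1`).  `h_n = P^n (ind M)` is decreasing in `n` (`P (ind M) ≤ ind M`, positivity); let `h` be
the limit; `P h = h` (finite sums), so `P^k h = h`.  By induction on `j`: `h ≤ γ^j lg` (`j = 0`: `ind M ≤ lg` as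
`M ≥ 3 > e`; step: `h x = P^k h x ≤ γ^j P^k lg x ≤ γ^(j+1) lg x`).  So `h = 0`. -/
def S_HIT : Prop := ∀ (d : ℕ) (m r : ℤ → ℤ), Rel d m r → (∏ j ∈ range d, m (j : ℤ)) < (d : ℤ) ^ d →
  ∀ δ : ℝ, 0 < δ → δ ≤ 1 / 32 → ∃ A₀ : ℝ, 0 < A₀ ∧ ∀ A M₀ : ℝ, A₀ ≤ A → ∃ M : ℝ, 1 ≤ M ∧
    ∀ (w : ℤ → ℤ → ℝ) (B : ℤ → ℕ), Law d w B δ A M₀ → ∀ x : ℤ,
      Tendsto (fun n : ℕ => (P d m r w B M)^[n] (ind M) x) atTop (nhds 0)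

/-- **PRBd**: as `S_PRB` (`Pool.Agent.U511.RP.PRB`, copy and adapt), the law of `ω_x` depends on `x`. -/
def S_PRBd : Prop := ∀ (d : ℕ) (m r : ℤ → ℤ) (μ : ℤ → Measure ℤ) [∀ x, IsProbabilityMeasure (μ x)]
  (B : ℤ → ℕ), (∀ x, μ x {u : ℤ | (B x : ℤ) < |u|} = 0) → ∀ (M : ℝ) (L : ℕ) (x : ℤ),
    (Measure.infinitePi μ) {ω | Long d m r M L x ω} ≤
      ENNReal.ofReal ((P d m r (fun x u => (μ x).real {u}) B M)^[L] (ind M) x)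

/-- **FINd**, from HIT and PRBd.  For each `y ∈ ℤ` the set of the `ω` for which the orbit of `y` has all its terms
different and of modulus `≥ M` is contained in `{Long M L y}` for all `L`, so it is a null set.  Outside these
countably many null sets all orbits are finite: an infinite orbit has different terms, only finitely many of
modulus `< M`, so from some term `y` on it has all its terms different and of modulus `≥ M`. -/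
def S_FINd : Prop := ∀ (d : ℕ) (m r : ℤ → ℤ), Rel d m r → (∏ j ∈ range d, m (j : ℤ)) < (d : ℤ) ^ d →
  ∀ δ : ℝ, 0 < δ → δ ≤ 1 / 32 → ∃ A₀ : ℝ, 0 < A₀ ∧ ∀ (A M₀ : ℝ) (μ : ℤ → Measure ℤ)
    [∀ x, IsProbabilityMeasure (μ x)] (B : ℤ → ℕ), A₀ ≤ A → (∀ x, μ x {u : ℤ | (B x : ℤ) < |u|} = 0) →
    Law d (fun x u => (μ x).real {u}) B δ A M₀ → ∀ᵐ ω ∂(Measure.infinitePi μ), ∀ x : ℤ,
      (Set.range fun i : ℕ => (stp d m r ω)^[i] x).Finite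

/-- the probability of a change at `x` -/
noncomputable def eps (A : ℝ) (x : ℤ) : ℝ := min 1 (A / Real.log (2 + |(x : ℝ)|))

/-- the size of the change at `x` -/
noncomputable def siz (δ : ℝ) (x : ℤ) : ℕ := ⌈(2 + |(x : ℝ)|) ^ δ⌉₊

/-- **LAW** (the explicit law is a `Law`).  `rare ε N` is `0` with probability `1 - ε`, otherwise uniform on
`{0, …, N-1}` (`Pool.Agent.U762.RP.Fin`: `rare_apply`, `rare_prob`, `rare_bdd`, `rare_mass`); its density is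
`(1-ε) 1_{u=0} + (ε/N) 1_{0≤u<N}`.  `unif`: `d^i ≤ N < d^(i+1)`.  `slow`: with `t = log(2+|x|)`, `t' = log(2+|x'|)`,
`|t'-t| ≤ τ = 4 |x|^(-1/2)`; `B' = ⌈e^(δ(t+τ))⌉`, `w' u = (1 - A'/(t+τ)) 1_{u=0} + A'/(t-τ) e^(-δ(t-τ)) 1_{0≤u<B'}`,
`A' = 2dA`, of mass `≤ 1 - A'/(t+τ) + A'/(t-τ) (e^(2δτ) + e^(-δ(t-τ))) ≤ 1 + 1/(log|x|)²` for large `|x|`. -/
def S_LAW : Prop := ∀ d : ℕ, 2 ≤ d → ∀ δ : ℝ, 0 < δ → δ ≤ 1 / 32 → ∀ A : ℝ, 0 < A → ∃ M₀ : ℝ,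
  Law d (fun x u => (rare (eps (2 * d * A) x) (siz δ x)).real {u}) (siz δ) δ A M₀

/-- **DEN** (the changes have density zero).  `N_s = #{|x| ≤ 2^s : ω_x ≠ 0}` has expectation `≤ C 2^s/s` and (as a sum
of independent indicators) variance `≤ 2^(s+2)`; by Chebyshev and Borel-Cantelli almost surely `N_s ≤ C' 2^s/s` for
large `s`. -/
def S_DEN : Prop := ∀ (μ : ℤ → Measure ℤ) [∀ x, IsProbabilityMeasure (μ x)] (A : ℝ), 0 < A →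
  (∀ x : ℤ, 1 - A / Real.log (2 + |(x : ℝ)|) ≤ (μ x).real {0}) →
    ∀ᵐ ω ∂(Measure.infinitePi μ), ∃ C : ℝ, ∀ X : ℝ, 2 ≤ X →
      ({x : ℤ | |(x : ℝ)| ≤ X ∧ ω x ≠ 0}.ncard : ℝ) ≤ C * X / Real.log X

end Pool.Agent.U762.DZ
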