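import Pool.Agent.U762.DZ.Stm
import Pool.Agent.U891.DZ.AVGd
import Pool.Agent.U94.DZ.WCd
import Pool.Agent.U255.DZ.GEO
import Pool.Agent.U612.DZ.BLK
import Pool.Agent.U346.DZ.HIT
import Pool.Agent.U296.DZ.PRBd
import Pool.Agent.U208.DZ.FINd
import Pool.Agent.U430.DZ.LAW
import Pool.Agent.U741.DZ.DEN

set_option autoImplicit false

/-! # Project DZ: assembly -/

namespace Pool.Agent.U762.DZ

open Finset MeasureTheory Filter Pool.Agent.U762.RP

theorem fin3 : S_FINd := Pool.Agent.U208.DZ.t_FINd (Pool.Agent.U346.DZ.t_HIT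
  (Pool.Agent.U612.DZB.t_BLK (Pool.Agent.U94.DZ.t_WCd Pool.Agent.U891.DZ.t_AVGd) Pool.Agent.U255.DZ.GEO.t_GEO))
  Pool.Agent.U296.DZ.t_PRBd

theorem lg_pos (x : ℤ) : 0 < Real.log (2 + |(x : ℝ)|) :=
  Real.log_pos (by have := abs_nonneg (x : ℝ); linarith)

theorem eps_nonneg {A : ℝ} (hA : 0 ≤ A) (x : ℤ) : 0 ≤ eps A x :=
  le_min zero_le_one (div_nonneg hA (lg_pos x).le)

theorem eps_le (A : ℝ) (x : ℤ) : eps A x ≤ 1 := min_le_left _ _

theorem siz_pos (δ : ℝ) (x : ℤ) : 0 < siz δ x := by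
  unfold siz
  rw [Nat.ceil_pos]
  have := abs_nonneg (x : ℝ)
  positivity

theorem law_prob {A : ℝ} (hA : 0 ≤ A) (δ : ℝ) (x : ℤ) : IsProbabilityMeasure (rare (eps A x) (siz δ x)) :=
  rare_prob (eps_nonneg hA x) (eps_le A x) (siz_pos δ x)

/-- the explicit laws: all orbits are finite, the changes have density zero -/
theorem expl (d : ℕ) (m r : ℤ → ℤ) (h : Rel d m r) (hm : (∏ j ∈ range d, m (j : ℤ)) < (d : ℤ) ^ d) (δ : ℝ)
    (h0 : 0 < δ) (h1 : δ ≤ 1 / 32) : ∃ A₀ : ℝ, 0 < A₀ ∧ ∀ A : ℝ, A₀ ≤ A →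
      ∃ _ : ∀ x : ℤ, IsProbabilityMeasure (rare (eps A x) (siz δ x)),
        ∀ᵐ ω ∂(Measure.infinitePi fun x : ℤ => rare (eps A x) (siz δ x)),
          (∀ x : ℤ, (Set.range fun i : ℕ => (stp d m r ω)^[i] x).Finite) ∧
          ∃ C : ℝ, ∀ X : ℝ, 2 ≤ X → ({x : ℤ | |(x : ℝ)| ≤ X ∧ ω x ≠ 0}.ncard : ℝ) ≤ C * X / Real.log X := by
  obtain ⟨A₀, hA₀, hA⟩ := fin3 d m r h hm δ h0 h1
  have hd : (0 : ℝ) < d := by have := h.two_le; positivity
  refine ⟨2 * d * A₀, by positivity, fun A hAA => ?_⟩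
  have hApos : 0 < A := lt_of_lt_of_le (by positivity) hAA
  have hp : ∀ x : ℤ, IsProbabilityMeasure (rare (eps A x) (siz δ x)) := law_prob hApos.le δ
  refine ⟨hp, ?_⟩
  have hAe : 2 * d * (A / (2 * d)) = A := by field_simp
  obtain ⟨M₀, hL⟩ := Pool.Agent.U430.DZ.t_LAW d h.two_le δ h0 h1 (A / (2 * d)) (by positivity)
  rw [hAe] at hL
  have hf := hA (A / (2 * d)) M₀ (fun x => rare (eps A x) (siz δ x)) (siz δ)
    (by rw [le_div_iff₀ (by positivity)]; linarith) (fun x => by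
      refine measure_mono_null ?_ (rare_bdd (eps A x) (siz_pos δ x))
      intro u hu
      simp only [Set.mem_ofPred_eq] at hu ⊢
      by_contra hc
      push Not at hc
      rw [abs_of_nonneg hc.1] at hu
      omega) hL
  have hden := Pool.Agent.U741.DZ.t_DEN (fun x => rare (eps A x) (siz δ x)) A hApos (fun x => by
    refine le_trans ?_ (rare_zero (eps_nonneg hApos.le x) (eps_le A x) (siz_pos δ x))
    have : eps A x ≤ A / Real.log (2 + |(x : ℝ)|) := min_le_right _ _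
    linarith)
  filter_upwards [hf, hden] with ω h2 h3
  exact ⟨h2, h3⟩

end Pool.Agent.U762.DZ
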